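import Pool.Agent.H66.FR.Minimal

/-!
# Products of linear forms with a block defined over a field

Proof sketch.  If the product of the forms given by `g` is bounded below at nonzero integer vectors,
so is that of `h`.  Let `K` be the smallest subfield of `ℚ[B]` over which the block is defined; its
degree is at least three.  The units of `K` which are close to a given one-parameter family act on
the forms of `h`; comparing the sizes of the forms in the block and outside shows, with the density
of suitable ratios of units and a change of signs, that every form of `h` belongs to one real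
embedding of `K`.  If the matrices `D_n g U_n` near `h` were not all of this kind, then conjugation
by powers of a unit would magnify their difference from `h` to a nonzero shear of `h` which
satisfies the same hypotheses, and so is again defined over `K`, which is impossible.
-/

set_option autoImplicit false

namespace Pool.Agent.Results.MP_edeaa2_an.FieldRigidity

open Polynomial

/-- The span of the rows of `h` with index in `I` is the left kernel of `q(T)` for some real
polynomial `q`. -/
def CutOut {d : ℕ} (h : Matrix (Fin d) (Fin d) ℝ) (I : Finset (Fin d))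
    (T : Matrix (Fin d) (Fin d) ℤ) : Prop :=
  ∃ q : ℝ[X], ∀ v : Fin d → ℝ, v ∈ Submodule.span ℝ (h '' (I : Set (Fin d))) ↔
    Matrix.vecMul v (aeval (T.map (Int.cast : ℤ → ℝ)) q) = 0

/-- Let `h` be a limit of matrices `D_n g U_n` with `D_n` diagonal and `U_n` in `GL_d(ℤ)`, and let
the span of a nonempty proper set of rows of `h` be cut out by an integer matrix `B` with
irreducible minimal polynomial, but by no integer polynomial in `B` of degree at most two over `ℚ`.
Then either the product of the linear forms given by the rows of `g` takes arbitrarily small values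
at nonzero integer vectors, or all these forms are eigenvectors of a conjugate of some `p(B)` which
cuts out the same span; if `p(B)` has degree `d` the product is proportional to an integral form. -/
theorem result (d : ℕ) (g h : Matrix (Fin d) (Fin d) ℝ) (hg : g.det ≠ 0) (hh : h.det ≠ 0)
    (D : ℕ → Fin d → ℝ) (U : ℕ → (Matrix (Fin d) (Fin d) ℤ)ˣ)
    (hlim : Filter.Tendsto (fun n => Matrix.diagonal (D n) * g *
      (U n : Matrix (Fin d) (Fin d) ℤ).map (Int.cast : ℤ → ℝ)) Filter.atTop (nhds h))
    (B : Matrix (Fin d) (Fin d) ℤ) (hB : Irreducible (minpoly ℚ (B.map (Int.cast : ℤ → ℚ))))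
    (I : Finset (Fin d)) (hI0 : I.Nonempty) (hI1 : I ≠ Finset.univ) (hcut : CutOut h I B)
    (hdeg : ∀ p : ℤ[X], CutOut h I (aeval B p) →
      3 ≤ (minpoly ℚ ((aeval B p).map (Int.cast : ℤ → ℚ))).natDegree) :
    (∀ ε : ℝ, 0 < ε → ∃ x : Fin d → ℤ, x ≠ 0 ∧
      |∏ i : Fin d, ∑ j : Fin d, g i j * (x j : ℝ)| < ε) ∨
    ∃ p : ℤ[X], CutOut h I (aeval B p) ∧
      Irreducible (minpoly ℚ ((aeval B p).map (Int.cast : ℤ → ℚ))) ∧
      (∃ V : (Matrix (Fin d) (Fin d) ℤ)ˣ, ∀ i, ∃ μ : ℝ, Matrix.vecMul (g i)
        (((V : Matrix (Fin d) (Fin d) ℤ) * aeval B p *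
          ((V⁻¹ : (Matrix (Fin d) (Fin d) ℤ)ˣ) : Matrix (Fin d) (Fin d) ℤ)).map
            (Int.cast : ℤ → ℝ)) = μ • g i) ∧
      ((minpoly ℚ ((aeval B p).map (Int.cast : ℤ → ℚ))).natDegree = d →
        ∃ c : ℝ, c ≠ 0 ∧ ∀ m : Fin d →₀ ℕ, ∃ z : ℤ, MvPolynomial.coeff m
          (c • (∏ i : Fin d, ∑ j : Fin d,
            MvPolynomial.C (g i j) * MvPolynomial.X j : MvPolynomial (Fin d) ℝ)) = (z : ℝ)) := by
  by_cases hcase : ∀ ε : ℝ, 0 < ε → ∃ x : Fin d → ℤ, x ≠ 0 ∧
      |∏ i : Fin d, ∑ j : Fin d, g i j * (x j : ℝ)| < ε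
  · exact Or.inl hcase
  right
  push Not at hcase
  obtain ⟨ε, hε, hlow⟩ := hcase
  obtain ⟨q, hq⟩ := hcut
  obtain ⟨p, q', V, μ, hpq, hirr, hV, hμ⟩ := Pool.Agent.H66.FR.field_rigidity_min g hg B hB D U h hh
    hlim I hI0 hI1 q hq (fun p q' h => hdeg p ⟨q', h⟩) ε hε hlow
  exact ⟨p, ⟨q', hpq⟩, hirr, ⟨V, fun i => ⟨μ i, hV i⟩⟩, fun h =>
    Pool.Agent.H46.integral_of_eigen d g hg _ μ (hμ h) hV⟩

end Pool.Agent.Results.MP_edeaa2_an.FieldRigidity
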